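import Pool.Agent.H85.AK.Lac8
import Pool.Agent.H85.AK.Str5
import Pool.Agent.H85.AK.Str8
import Pool.Agent.H85.AK.KGrp
import Pool.Agent.H348.AKKBox
import Pool.Agent.H686.AKUp
import Pool.Agent.H807.AKPigeon
import Pool.Agent.H79.AKGrowth
import Pool.Agent.H618.AKPlace
import Pool.Agent.H30.AKSplit

/-!
# Exceptional slopes in finitely generated groups (arithmetic Kakeya, projection form)

For a finite set `E` of pairs of vectors call a slope `r` exceptional if `|π_r(E)| ≤ |E|^(1-ε)`,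
`π_r(x, y) = x + r y`. Let `0 < ε ≤ 1` and `|E| ≥ 2`. All bounds hold after any projective change
`μ(r) = (a + b r) / (c + d r)` of the slopes.

1. Over any field and for any valuation `v` (any value group) the exceptional slopes have at most
   `exp(6/ε) log|E|` different values `v(μ(r))`.
2. For every embedding `σ` into the complex numbers they have at most `exp(330/ε) log|E|` different
   scales `⌊log₃ |σ(μ(r))|⌋`.
3. For every finitely generated subgroup `Γ` of `F*`, `F` any field, of rank `ρ` there are at most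
   `C(Γ, ε) (log|E|)^ρ` exceptional slopes `r` with `μ(r) ∈ Γ`.
4. The exponent `ρ` is sharp for every finitely generated group of algebraic numbers: for every `ε > 0`
   there are arbitrarily large `E ⊂ ℂ × ℂ` with `|π_r(E)| ≤ |E|^(1/2+ε)` for at least `c (log|E|)^ρ`
   elements `r` of `Γ`.
5. Rational slopes, uniform bounds. Let `G` be a finite set of nonzero rational numbers, all of them values
   `μ(r)` at exceptional slopes `r`, and `X = exp(6/ε) log|E|`. If `G` lies in a group of rank `ρ` then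
   `|G| ≤ 2 X ^ ρ`, with no other dependence on the group. If `G` has any multiplicative structure, that is at
   least `|G| ^ 3 / L` solutions of `a b = a' b'`, then `|G| ≤ X ^ (16000 (1 + log L))`: so the exceptional slopes
   are multiplicatively unstructured on all scales above a power of `log|E|`. The power of the logarithm must grow
   with `log L`: for all `ρ` there are arbitrarily large `E ⊂ ℤ × ℤ` and sets `R` of at least
   `(c log|E|) ^ ρ` integers with `|R R| ≤ 2 ^ ρ |R|` and `|π_r(E)| ≤ |E| ^ (1/2 + ε)` for all `r ∈ R`. For the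
   powers of a prime the constant `exp(6/ε)` is sharp up to the constant in the exponent.
6. The inequality of the arithmetic Kakeya conjecture with `exp(13/ε) log|A|` slopes: the powers
   `g, g², …` of any rational number `g ≠ 0, ±1`.
7. Only `log log` for lacunary slopes and dense subsets of Cartesian products: let `r_j` be slopes with
   `|log|σ(r_0)|| ≥ 5`, `|log|σ(r_(j+1))|| ≥ 4 |log|σ(r_j)||` and let `X, Y ⊂ V`, `P = |X| |Y|`. For at
   most `c(ε, K) (1 + log log P)` indices `j` there is a set `E ⊆ X × Y` with at least `P / K` elements and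
   `|π_(r_j)(E)| ≤ P ^ (1 - ε)`. So if `|π_0(E)| |π_∞(E)| ≤ K |E|` the inequality of the conjecture holds
   with `O(log log|E|)` slopes `r_j`.
-/

set_option autoImplicit false

namespace Pool.Agent.Results.MP_169869_co.ExceptionalPlaces

open scoped Pointwise

/-- `π_r(E) = {x + r y : (x, y) ∈ E}` for a finite set `E` of pairs of elements of an `F`-vector
space `V` and `r ∈ F`. -/
def projV {F V : Type} [Field F] [AddCommGroup V] [Module F V] [DecidableEq V] (r : F)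
    (E : Finset (V × V)) : Finset V :=
  E.image fun e => e.1 + r • e.2

/-- `π_r(A) = {x + r y : (x, y) ∈ A}` for a finite subset `A` of `ℤ × ℤ` and a rational `r`. -/
def proj (r : ℚ) (A : Finset (ℤ × ℤ)) : Finset ℚ :=
  A.image fun a => (a.1 : ℚ) + r * (a.2 : ℚ)

/-- part 7: dense subsets of Cartesian products and a lacunary sequence of slopes -/
def Part7 : Prop :=
  ∀ ε K : ℝ, 0 < ε → ε ≤ 1 → 1 ≤ K → ∃ c : ℝ, 0 < c ∧
    ∀ (F V : Type) [Field F] [AddCommGroup V] [Module F V] [DecidableEq V] (σ : F →+* ℂ)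
      (X Y : Finset V) (r : ℕ → F), X.Nonempty → 2 ≤ Y.card →
      K ≤ ((X.card : ℝ) * Y.card) ^ (ε / 2) → 5 ≤ |Real.log ‖σ (r 0)‖| →
      (∀ j, 4 * |Real.log ‖σ (r j)‖| ≤ |Real.log ‖σ (r (j + 1))‖|) →
      ∀ J : Finset ℕ, (∀ j ∈ J, ∃ E ⊆ X ×ˢ Y, (X.card : ℝ) * Y.card ≤ K * (E.card : ℝ) ∧
        ((projV (r j) E).card : ℝ) ≤ ((X.card : ℝ) * Y.card) ^ (1 - ε)) →
      (J.card : ℝ) ≤ c * (1 + Real.log (Real.log ((X.card : ℝ) * Y.card)))

/-- **Exceptional slopes and places.** -/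
theorem result :
    -- 1. few values of every valuation
    (∀ (F : Type) [Field F] (Γ₀ : Type) [LinearOrderedCommGroupWithZero Γ₀] (v : Valuation F Γ₀)
        (V : Type) [AddCommGroup V] [Module F V] [DecidableEq V] (ε : ℝ), 0 < ε → ε ≤ 1 →
        ∀ a b c d : F, a * d - b * c ≠ 0 → ∀ (E : Finset (V × V)) (R : Finset F), 2 ≤ E.card →
        (∀ r ∈ R, a + b * r ≠ 0 ∧ c + d * r ≠ 0 ∧
          ((projV r E).card : ℝ) ≤ (E.card : ℝ) ^ (1 - ε)) →
        (((fun r => v ((a + b * r) / (c + d * r))) '' (R : Set F)).ncard : ℝ) ≤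
          Real.exp (6 / ε) * Real.log (E.card : ℝ)) ∧
    -- 2. few scales at every archimedean place
    (∀ (F : Type) [Field F] (σ : F →+* ℂ)
        (V : Type) [AddCommGroup V] [Module F V] [DecidableEq V] (ε : ℝ), 0 < ε → ε ≤ 1 →
        ∀ a b c d : F, a * d - b * c ≠ 0 → ∀ (E : Finset (V × V)) (R : Finset F), 2 ≤ E.card →
        (∀ r ∈ R, a + b * r ≠ 0 ∧ c + d * r ≠ 0 ∧
          ((projV r E).card : ℝ) ≤ (E.card : ℝ) ^ (1 - ε)) →
        (((fun r => Int.log 3 ‖σ ((a + b * r) / (c + d * r))‖) '' (R : Set F)).ncard : ℝ) ≤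
          Real.exp (330 / ε) * Real.log (E.card : ℝ)) ∧
    -- 3. finitely generated groups of slopes, any field
    (∀ (F : Type) [Field F] (Γ : Subgroup Fˣ), Γ.FG → ∀ ε : ℝ, 0 < ε → ε ≤ 1 →
        ∃ C : ℝ, 0 < C ∧ ∀ (V : Type) [AddCommGroup V] [Module F V] [DecidableEq V]
          (a b c d : F), a * d - b * c ≠ 0 → ∀ (E : Finset (V × V)) (R : Finset F), 2 ≤ E.card →
          (∀ r ∈ R, (∃ γ ∈ Γ, a + b * r = γ * (c + d * r)) ∧
            ((projV r E).card : ℝ) ≤ (E.card : ℝ) ^ (1 - ε)) →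
          (R.card : ℝ) ≤ C * Real.log (E.card : ℝ) ^ Module.finrank ℤ (Additive Γ)) ∧
    -- 4. sharpness of the exponent for every finitely generated group of algebraic numbers
    (∀ Γ : Subgroup ℂˣ, Γ.FG → (∀ x ∈ Γ, IsAlgebraic ℚ (x : ℂ)) →
        0 < Module.finrank ℤ (Additive Γ) → ∀ ε : ℝ, 0 < ε → ∃ c : ℝ, 0 < c ∧ ∀ N : ℕ,
        ∃ (E : Finset (ℂ × ℂ)) (R : Finset ℂˣ), N ≤ E.card ∧
          (∀ r ∈ R, r ∈ Γ ∧ ((projV (r : ℂ) E).card : ℝ) ≤ (E.card : ℝ) ^ (1 / 2 + ε)) ∧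
          c * Real.log (E.card : ℝ) ^ Module.finrank ℤ (Additive Γ) ≤ (R.card : ℝ)) ∧
    -- 5. rational slopes: groups and approximate groups, uniform bounds, sharpness
    ((∀ (V : Type) [AddCommGroup V] [Module ℚ V] [DecidableEq V] (ε : ℝ), 0 < ε → ε ≤ 1 →
        ∀ a b c d : ℚ, a * d - b * c ≠ 0 → ∀ (E : Finset (V × V)) (G : Finset ℚˣ), 2 ≤ E.card →
        (∀ γ ∈ G, ∃ r : ℚ, a + b * r = γ * (c + d * r) ∧
          ((projV r E).card : ℝ) ≤ (E.card : ℝ) ^ (1 - ε)) →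
        (∀ Γ : Subgroup ℚˣ, Γ.FG → (∀ γ ∈ G, γ ∈ Γ) → (G.card : ℝ) ≤
          2 * (Real.exp (6 / ε) * Real.log (E.card : ℝ)) ^ Module.finrank ℤ (Additive Γ)) ∧
        (∀ L : ℝ, 1 ≤ L → (G.card : ℝ) ^ 3 ≤ L * (G.mulEnergy G : ℝ) → (G.card : ℝ) ≤
          (Real.exp (6 / ε) * Real.log (E.card : ℝ)) ^ (16000 * (1 + Real.log L)))) ∧
      (∀ ε : ℝ, 0 < ε → ε ≤ 1 → ∀ ρ : ℕ, 1 ≤ ρ → ∃ c : ℝ, 0 < c ∧ ∀ N : ℕ,
        ∃ (E : Finset (ℤ × ℤ)) (R : Finset ℤ), N ≤ E.card ∧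
          (∀ r ∈ R, r ≠ 0 ∧ ((proj (r : ℚ) E).card : ℝ) ≤ (E.card : ℝ) ^ (1 / 2 + ε)) ∧
          (R * R).card ≤ 2 ^ ρ * R.card ∧ (c * Real.log (E.card : ℝ)) ^ ρ ≤ (R.card : ℝ)) ∧
      (∀ ε : ℝ, 0 < ε → ε ≤ 1 / 1000 → ∀ p : ℕ, p.Prime → ∀ N : ℕ,
        ∃ A : Finset (ℤ × ℤ), N ≤ A.card ∧ 2 ≤ A.card ∧
        ∀ i : ℕ, (i : ℝ) ≤ Real.exp (1 / (200 * ε)) * Real.log (A.card : ℝ) →
          ((proj ((p : ℚ) ^ i) A).card : ℝ) ≤ (A.card : ℝ) ^ (1 - ε))) ∧
    -- 6. the conjectured inequality with logarithmically many slopes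
    (∀ ε : ℝ, 0 < ε → ε ≤ 1 → ∀ g : ℚ, g ≠ 0 → g ≠ 1 → g ≠ -1 →
        ∀ A : Finset (ℤ × ℤ), 2 ≤ A.card →
        ∃ i : ℕ, 1 ≤ i ∧ (i : ℝ) ≤ Real.exp (13 / ε) * Real.log (A.card : ℝ) ∧
          ((proj (-1) A).card : ℝ) ≤ (A.card : ℝ) ∧
          (A.card : ℝ) ≤ ((proj (g ^ i) A).card : ℝ) ^ (1 + ε)) ∧
    -- 7. dense subsets of Cartesian products, lacunary slopes
    Part7 := by
  refine ⟨?_, ?_, ?_, ?_, ⟨?_, ?_, ?_⟩, ?_, ?_⟩
  · intro F _ Γ₀ _ v V _ _ _ ε hε hε1 a b c d hdet E R hE hR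
    refine H85.AK.val_mob hε hε1 v hdet E hE R fun r hr => ?_
    obtain ⟨h1, h2, h3⟩ := hR r hr
    refine ⟨h1, h2, ?_⟩
    rw [H85.AK.card_image_any _ (fun a b => inferInstanceAs (Decidable (a = b)))]
    exact h3
  · intro F _ σ V _ _ _ ε hε hε1 a b c d hdet E R hE hR
    refine H85.AK.arc_mob hε hε1 σ hdet E hE R fun r hr => ?_
    obtain ⟨h1, h2, h3⟩ := hR r hr
    refine ⟨h1, h2, ?_⟩
    rw [H85.AK.card_image_any _ (fun a b => inferInstanceAs (Decidable (a = b)))]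
    exact h3
  · intro F _ Γ hΓ ε hε hε1
    obtain ⟨C, hC, h⟩ := H85.AK.exc_group F Γ hΓ hε hε1
    refine ⟨C, hC, ?_⟩
    intro V _ _ _ a b c d hdet E R hE hR
    refine h V a b c d hdet E R hE fun r hr => ?_
    obtain ⟨h1, h2⟩ := hR r hr
    refine ⟨h1, ?_⟩
    rw [H85.AK.card_image_any _ (fun a b => inferInstanceAs (Decidable (a = b)))]
    exact h2
  · intro Γ hFG halg hρ ε hε
    obtain ⟨c, hc, h⟩ := H85.AK.s_kgroup' (H85.AK.K348.s_kbox H686.AKUp.s_up H807.AK.s_low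
      H807.AK.s_pigeon (H79.AKGrowth.s_growth H618.AKPlace.s_place)) H30.AKSplit.s_split
      Γ hFG halg hρ ε hε
    refine ⟨c, hc, fun N => ?_⟩
    obtain ⟨E, R, h1, h2, h3⟩ := h N
    refine ⟨E, R, h1, fun r hr => ⟨(h2 r hr).1, ?_⟩, h3⟩
    refine le_trans (le_of_eq ?_) (h2 r hr).2
    rw [projV]
    exact congrArg Nat.cast (H85.AK.card_image_any _ _ _ _)
  · intro V _ _ _ ε hε hε1 a b c d hdet E G hE hG
    refine ⟨fun Γ hΓ hGΓ => ?_, fun L hL hEn => ?_⟩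
    · refine H85.AK.slope_group hε hε1 Γ hΓ hdet E hE G fun γ hγ => ⟨hGΓ γ hγ, ?_⟩
      obtain ⟨r, h1, h2⟩ := hG γ hγ
      refine ⟨r, h1, ?_⟩
      rw [H85.AK.card_image_any _ (fun a b => inferInstanceAs (Decidable (a = b)))]
      exact h2
    · refine H85.AK.slope_struct hε hε1 hdet E hE L hL G hEn fun γ hγ => ?_
      obtain ⟨r, h1, h2⟩ := hG γ hγ
      refine ⟨r, h1, ?_⟩
      rw [H85.AK.card_image_any _ (fun a b => inferInstanceAs (Decidable (a = b)))]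
      exact h2
  · intro ε hε hε1 ρ hρ
    exact H85.AK.slope_low hε hε1 hρ
  · intro ε hε hε1 p hp N
    exact H85.AK.low_rat hε hε1 hp.two_le N
  · intro ε hε hε1 g g0 g1 g2 A hA
    obtain ⟨i, h1, h2, h3⟩ := H85.AK.good_power_g hε hε1 g0 g1 g2 A hA
    exact ⟨i, h1, h2, by exact_mod_cast Finset.card_image_le, h3⟩
  · intro ε K hε hε1 hK
    obtain ⟨c, hc, h⟩ := H85.AK.lac_dense ε K hε hε1 hK
    refine ⟨c, hc, ?_⟩
    intro F V _ _ _ _ σ X Y r hX hY hKC h0 h1 J hJ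
    refine h F V σ X Y r hX hY hKC h0 h1 J fun j hj => ?_
    obtain ⟨E, h2, h3, h4⟩ := hJ j hj
    exact ⟨E, h2, h3, h4⟩

end Pool.Agent.Results.MP_169869_co.ExceptionalPlaces
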