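import Pool.Agent.H22.Lifts
import Pool.Graph.R_pool_sql_team_seeded_5cf16337.Results.MP_169869_co.ThreeSlopes

/-!
# Three slopes: the exponent is at least `log_4 12 = 1.792...`, and harmonic triples are best

For three different slopes `r_0, r_1, r_2 ≠ -1` let `h ≥ 2` be the height of their cross-ratio with
`-1`. We construct finite sets `A ⊂ ℤ × ℤ` with `|π_{-1}(A)| > C max |π_{r_i}(A)|^c` for every
`c < 2 - log (2/√3) / log h`; for `h = 2` (the harmonic triples, for instance `0, 1, ∞`) this is
every `c < log_4 12 = 1.7924...`, and for the other triples every `c ≤ 1.869`. As harmonic triples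
have the exponent `82/45 = 1.8222...` (library module `ThreeSlopes`), they are the best triples.
-/

set_option autoImplicit false

namespace Pool.Agent.Results.MP_169869_co.HarmonicTriples

open Finset Filter Topology Pool.Agent.H22.Lifts Pool.Agent.N68.Corner

/-- The projection of `A` in the direction of a slope in `ℚ ∪ {∞}`; `some r` is the slope `r ∈ ℚ`
(values `x + r y`), and `none` is the slope `∞` (values `y`). -/
def proj : Option ℚ → Finset (ℤ × ℤ) → Finset ℚ
  | some r, A => A.image (fun z => (z.1 : ℚ) + r * (z.2 : ℚ))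
  | none, A => A.image (fun z => (z.2 : ℚ))

/-- The largest of the three projections of `A` in the directions `r 0`, `r 1`, `r 2`. -/
def maxProj (r : Fin 3 → Option ℚ) (A : Finset (ℤ × ℤ)) : ℕ :=
  univ.sup (fun i => (proj (r i) A).card)

/-- The slopes `r 0`, `r 1`, `r 2` bound the projection of slope `-1` with exponent `c` (and some
constant). -/
def HasExponent (r : Fin 3 → Option ℚ) (c : ℝ) : Prop :=
  ∃ C : ℝ, ∀ A : Finset (ℤ × ℤ), A.Nonempty →
    ((proj (some (-1)) A).card : ℝ) ≤ C * (maxProj r A : ℝ) ^ c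

/-- The integer vector `(a, b)` with `a x + b y` proportional to the projection of slope `s`:
`(denominator, numerator)` for a rational slope and `(0, 1)` for `∞`. -/
def vec : Option ℚ → ℤ × ℤ
  | some r => ((r.den : ℤ), r.num)
  | none => (0, 1)

/-- the determinant of the vectors of two slopes -/
def br (s t : Option ℚ) : ℤ := (vec s).1 * (vec t).2 - (vec s).2 * (vec t).1

/-- The cross-ratio of the three slopes with the slope `-1`. -/
def crossRatio (r : Fin 3 → Option ℚ) : ℚ :=
  ((br (r 0) (r 2) * br (r 1) (some (-1)) : ℤ) : ℚ) /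
    ((br (r 1) (r 2) * br (r 0) (some (-1)) : ℤ) : ℚ)

/-- The height of the cross-ratio `p / q` (in lowest terms): the largest of `|p|`, `|q|`,
`|p - q|`. -/
def height (r : Fin 3 → Option ℚ) : ℕ :=
  max (crossRatio r).num.natAbs
    (max (crossRatio r).den ((crossRatio r).num - ((crossRatio r).den : ℤ)).natAbs)

/-! ### slopes -/

lemma card_proj (s : Option ℚ) (A : Finset (ℤ × ℤ)) :
    (proj s A).card = (A.image (fun z => (vec s).1 * z.1 + (vec s).2 * z.2)).card := by
  cases s with
  | none =>
    have : proj none A = (A.image (fun z => (vec none).1 * z.1 + (vec none).2 * z.2)).image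
        (fun w : ℤ => (w : ℚ)) := by
      rw [image_image]
      unfold proj
      apply image_congr
      intro z _
      simp [vec]
    rw [this, card_image_of_injective _ Int.cast_injective]
  | some r =>
    have hd : (r.den : ℚ) ≠ 0 := by exact_mod_cast r.den_nz
    have : proj (some r) A =
        (A.image (fun z => (vec (some r)).1 * z.1 + (vec (some r)).2 * z.2)).image
        (fun w : ℤ => (w : ℚ) / (r.den : ℚ)) := by
      rw [image_image]
      unfold proj
      apply image_congr
      intro z _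
      simp only [vec, Function.comp_apply]
      push_cast
      rw [add_div, mul_div_right_comm, div_self hd, one_mul, mul_div_right_comm,
        Rat.num_div_den]
    rw [this, card_image_of_injective]
    intro w w' h
    simp only at h
    exact Int.cast_injective ((div_left_inj' hd).1 h)

lemma br_ne {s t : Option ℚ} (h : s ≠ t) : br s t ≠ 0 := by
  intro hb
  apply h
  cases s with
  | none =>
    cases t with
    | none => rfl
    | some t =>
      simp [br, vec] at hb
  | some s =>
    cases t with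
    | none =>
      simp [br, vec] at hb
    | some t =>
      simp only [br, vec] at hb
      congr 1
      rw [Rat.eq_iff_mul_eq_mul]
      linarith

lemma br_anti (s t : Option ℚ) : br s t = - br t s := by
  unfold br
  ring

/-- Plücker relation -/
lemma plucker (s t u w : Option ℚ) :
    br s t * br u w - br s u * br t w + br s w * br t u = 0 := by
  unfold br
  ring

/-! ### the target form is injective -/

lemma red_eq_iff {ι : Type*} (m : ℕ) (u v : ι → ℤ) :
    red m u = red m v ↔ ∀ i, (m : ℤ) ∣ v i - u i := by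
  unfold red
  rw [funext_iff]
  exact forall_congr' fun i => ZMod.intCast_eq_intCast_iff_dvd_sub (u i) (v i) m

/-- With unique lifts modulo `m`, where `m` is `|p|`, `|q|` or `|p - q|`, the vector `p u + q v`
determines the pair `(u, v)`. -/
lemma determined {ι : Type*} [Fintype ι] [DecidableEq ι] {m : ℕ} {p q : ℤ} (hpq : IsCoprime p q)
    (hp : p ≠ 0) (hq : q ≠ 0) (hne : p ≠ q) (hm : (m : ℤ) ∣ p ∨ (m : ℤ) ∣ q ∨ (m : ℤ) ∣ p - q)
    {A : Finset ((ι → ℤ) × (ι → ℤ))} (hA : UniqueLifts m A) {t t' : (ι → ℤ) × (ι → ℤ)}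
    (ht : t ∈ A) (ht' : t' ∈ A) (h : p • t.1 + q • t.2 = p • t'.1 + q • t'.2) : t = t' := by
  obtain ⟨h1, h2, h3⟩ := hA
  have hi : ∀ i, p * t.1 i + q * t.2 i = p * t'.1 i + q * t'.2 i := fun i => by
    have := congrFun h i
    simpa [smul_eq_mul] using this
  rcases hm with hm | hm | hm
  · have e2 : t.2 = t'.2 := by
      apply h2 t ht t' ht'
      rw [red_eq_iff]
      intro i
      have hc : IsCoprime (m : ℤ) q := IsCoprime.of_isCoprime_of_dvd_left hpq hm
      apply hc.dvd_of_dvd_mul_left
      have : q * (t'.2 i - t.2 i) = p * (t.1 i - t'.1 i) := by linarith [hi i]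
      rw [this]
      exact Dvd.dvd.mul_right hm _
    have e1 : t.1 = t'.1 := by
      funext i
      have := hi i
      rw [e2] at this
      exact mul_left_cancel₀ hp (by linarith)
    exact Prod.ext e1 e2
  · have e1 : t.1 = t'.1 := by
      apply h1 t ht t' ht'
      rw [red_eq_iff]
      intro i
      have hc : IsCoprime (m : ℤ) p := IsCoprime.of_isCoprime_of_dvd_left hpq.symm hm
      apply hc.dvd_of_dvd_mul_left
      have : p * (t'.1 i - t.1 i) = q * (t.2 i - t'.2 i) := by linarith [hi i]
      rw [this]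
      exact Dvd.dvd.mul_right hm _
    have e2 : t.2 = t'.2 := by
      funext i
      have := hi i
      rw [e1] at this
      exact mul_left_cancel₀ hq (by linarith)
    exact Prod.ext e1 e2
  · have e3 : t.1 + t.2 = t'.1 + t'.2 := by
      apply h3 t ht t' ht'
      rw [red_eq_iff]
      intro i
      have hc0 : IsCoprime (p - q) q := by
        obtain ⟨a, b, hab⟩ := hpq
        exact ⟨a, b + a, by linear_combination hab⟩
      have hc : IsCoprime (m : ℤ) q := IsCoprime.of_isCoprime_of_dvd_left hc0 hm
      apply hc.dvd_of_dvd_mul_left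
      have : q * ((t'.1 + t'.2) i - (t.1 + t.2) i) = (p - q) * (t.1 i - t'.1 i) := by
        simp only [Pi.add_apply]
        linarith [hi i]
      rw [this]
      exact Dvd.dvd.mul_right hm _
    have e1 : t.1 = t'.1 := by
      funext i
      have h5 := congrFun e3 i
      simp only [Pi.add_apply] at h5
      have h6 := hi i
      have h7 : t.2 i = t'.1 i + t'.2 i - t.1 i := by linarith
      rw [h7] at h6
      have h8 : (p - q) * t.1 i = (p - q) * t'.1 i := by linarith
      exact mul_left_cancel₀ (sub_ne_zero.2 hne) h8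
    have e2 : t.2 = t'.2 := by
      rw [e1] at e3
      exact add_left_cancel e3
    exact Prod.ext e1 e2

/-- Every finite set of integer vectors embeds linearly into `ℤ`. -/
lemma exists_hom {ι : Type*} [Fintype ι] (S : Finset (ι → ℤ)) :
    ∃ φ : (ι → ℤ) →+ ℤ, Set.InjOn φ S := by
  classical
  let e := Fintype.equivFin ι
  let P : (ι → ℤ) → Polynomial ℤ := fun u =>
    ∑ i, Polynomial.C (u i) * Polynomial.X ^ (e i : ℕ)
  have hcoef : ∀ u i, (P u).coeff (e i : ℕ) = u i := by
    intro u i
    simp only [P, Polynomial.finsetSum_coeff, Polynomial.coeff_C_mul, Polynomial.coeff_X_pow]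
    rw [Finset.sum_eq_single i]
    · simp
    · intro j _ hj
      have : (e i : ℕ) ≠ (e j : ℕ) := fun h => hj (e.injective (Fin.ext h)).symm
      simp [this]
    · simp
  have hP : ∀ u, u ≠ 0 → P u ≠ 0 := by
    intro u hu h
    apply hu
    funext i
    have := hcoef u i
    rw [h] at this
    simpa using this.symm
  have hprod : ∏ z ∈ (S ×ˢ S).filter (fun z => z.1 ≠ z.2), P (z.1 - z.2) ≠ 0 := by
    rw [prod_ne_zero_iff]
    intro z hz
    exact hP _ (sub_ne_zero.2 (mem_filter.1 hz).2)
  obtain ⟨x, hx⟩ : ∃ x : ℤ, (∏ z ∈ (S ×ˢ S).filter (fun z => z.1 ≠ z.2), P (z.1 - z.2)).eval x ≠ 0 := by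
    by_contra hcon
    push Not at hcon
    exact hprod (Polynomial.funext (by simpa using hcon))
  refine ⟨⟨⟨fun u => ∑ i, u i * x ^ (e i : ℕ), by simp⟩, ?_⟩, ?_⟩
  · intro u v
    simp only [Pi.add_apply, add_mul, sum_add_distrib]
  · intro u hu v hv h
    by_contra hne
    apply hx
    rw [Polynomial.eval_prod]
    apply prod_eq_zero (i := (u, v)) (mem_filter.2 ⟨mem_product.2 ⟨hu, hv⟩, hne⟩)
    have h' : ∑ i, u i * x ^ (e i : ℕ) = ∑ i, v i * x ^ (e i : ℕ) := h
    simp only [P, Polynomial.eval_finsetSum, Polynomial.eval_mul, Polynomial.eval_C,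
      Polynomial.eval_pow, Polynomial.eval_X, Pi.sub_apply, sub_mul, sum_sub_distrib, h', sub_self]

/-! ### heights -/

variable {r : Fin 3 → Option ℚ}

lemma ratio_spec (hinj : Function.Injective r) (hr : ∀ i, r i ≠ some (-1)) :
    (crossRatio r).num ≠ 0 ∧ (crossRatio r).num ≠ ((crossRatio r).den : ℤ) ∧
    ∃ g : ℚ, g ≠ 0 ∧
      ((br (r 0) (r 2) * br (r 1) (some (-1)) : ℤ) : ℚ) = g * (crossRatio r).num ∧
      ((br (r 1) (r 2) * br (r 0) (some (-1)) : ℤ) : ℚ) = g * (crossRatio r).den := by
  set P : ℤ := br (r 0) (r 2) * br (r 1) (some (-1)) with hP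
  set Q : ℤ := br (r 1) (r 2) * br (r 0) (some (-1)) with hQ
  have hP0 : P ≠ 0 := mul_ne_zero (br_ne (hinj.ne (by decide))) (br_ne (hr 1))
  have hQ0 : Q ≠ 0 := mul_ne_zero (br_ne (hinj.ne (by decide))) (br_ne (hr 0))
  have hPQ : P ≠ Q := by
    have h1 := plucker (r 0) (r 1) (r 2) (some (-1))
    have h2 : br (r 0) (r 1) * br (r 2) (some (-1)) ≠ 0 :=
      mul_ne_zero (br_ne (hinj.ne (by decide))) (br_ne (hr 2))
    intro h
    apply h2
    rw [hP, hQ] at h
    linarith
  have hP0' : (P : ℚ) ≠ 0 := by exact_mod_cast hP0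
  have hQ0' : (Q : ℚ) ≠ 0 := by exact_mod_cast hQ0
  have hρ : crossRatio r = (P : ℚ) / (Q : ℚ) := rfl
  have hd : ((crossRatio r).den : ℚ) ≠ 0 := by exact_mod_cast (crossRatio r).den_nz
  have hnd : ((crossRatio r).num : ℚ) / (crossRatio r).den = (P : ℚ) / (Q : ℚ) := by
    rw [Rat.num_div_den, hρ]
  have hne : (crossRatio r) ≠ 0 := by
    rw [hρ]
    exact div_ne_zero hP0' hQ0'
  refine ⟨Rat.num_ne_zero.2 hne, ?_, (Q : ℚ) / (crossRatio r).den, div_ne_zero hQ0' hd, ?_, ?_⟩
  · intro h
    apply hPQ
    have h2 : ((crossRatio r).num : ℚ) = (crossRatio r).den := by exact_mod_cast h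
    rw [h2, div_self hd, eq_div_iff hQ0', one_mul] at hnd
    exact_mod_cast hnd.symm
  · rw [div_mul_eq_mul_div, mul_div_assoc, hnd]
    field_simp
  · field_simp

lemma two_le_height (hinj : Function.Injective r) (hr : ∀ i, r i ≠ some (-1)) :
    2 ≤ height r := by
  obtain ⟨h1, h2, -⟩ := ratio_spec hinj hr
  have h3 := (crossRatio r).den_pos
  unfold height
  omega

lemma height_dvd : ((height r : ℕ) : ℤ) ∣ (crossRatio r).num ∨
    ((height r : ℕ) : ℤ) ∣ ((crossRatio r).den : ℤ) ∨
    ((height r : ℕ) : ℤ) ∣ (crossRatio r).num - ((crossRatio r).den : ℤ) := by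
  unfold height
  rcases max_choice (crossRatio r).num.natAbs
    (max (crossRatio r).den ((crossRatio r).num - ((crossRatio r).den : ℤ)).natAbs) with h | h
  · left
    rw [h]
    exact Int.natAbs_dvd.2 dvd_rfl
  · rcases max_choice (crossRatio r).den
      ((crossRatio r).num - ((crossRatio r).den : ℤ)).natAbs with h' | h'
    · right; left
      rw [h, h']
    · right; right
      rw [h, h']
      exact Int.natAbs_dvd.2 dvd_rfl

/-! ### the construction -/

lemma construct (hinj : Function.Injective r) (hr : ∀ i, r i ≠ some (-1))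
    {ι : Type*} [Fintype ι] [DecidableEq ι] (A : Finset ((ι → ℤ) × (ι → ℤ)))
    (hA : UniqueLifts (height r) A) :
    ∃ B : Finset (ℤ × ℤ), B.card = A.card ∧ (proj (some (-1)) B).card = A.card ∧
      ∀ i, (proj (r i) B).card ≤ height r ^ Fintype.card ι := by
  classical
  have h2 := two_le_height hinj hr
  have : NeZero (height r) := ⟨by omega⟩
  obtain ⟨hp, hne, g, hg, hgP, hgQ⟩ := ratio_spec hinj hr
  set p := (crossRatio r).num with hpdef
  set q : ℤ := ((crossRatio r).den : ℤ) with hqdef
  have hq : q ≠ 0 := by rw [hqdef]; exact_mod_cast (crossRatio r).den_nz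
  have hcop : IsCoprime p q := by
    rw [Int.isCoprime_iff_nat_coprime]
    exact (crossRatio r).reduced
  obtain ⟨φ, hφ⟩ := exists_hom (A.image (fun t => p • t.1 + q • t.2))
  set b02 := br (r 0) (r 2) with hb02
  set b12 := br (r 1) (r 2) with hb12
  -- the linear map
  set ψ : (ι → ℤ) × (ι → ℤ) → ℤ × ℤ := fun t =>
    (-b02 * (vec (r 1)).2 * φ t.1 - b12 * (vec (r 0)).2 * φ t.2,
      b02 * (vec (r 1)).1 * φ t.1 + b12 * (vec (r 0)).1 * φ t.2) with hψ
  have htar : ∀ t, (((vec (some (-1))).1 * (ψ t).1 + (vec (some (-1))).2 * (ψ t).2 : ℤ) : ℚ) =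
      g * ((φ (p • t.1 + q • t.2) : ℤ) : ℚ) := by
    intro t
    rw [map_add, map_zsmul, map_zsmul]
    have e1 : (vec (some (-1))).1 * (ψ t).1 + (vec (some (-1))).2 * (ψ t).2 =
        (b02 * br (r 1) (some (-1))) * φ t.1 + (b12 * br (r 0) (some (-1))) * φ t.2 := by
      simp only [hψ, br]
      ring
    rw [e1]
    push_cast at hgP hgQ ⊢
    rw [hgP, hgQ]
    simp only [smul_eq_mul, hqdef]
    push_cast
    ring
  have hinjT : Set.InjOn (fun t => (vec (some (-1))).1 * (ψ t).1 + (vec (some (-1))).2 * (ψ t).2)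
      A := by
    intro t ht t' ht' h
    simp only at h
    have h3 : g * ((φ (p • t.1 + q • t.2) : ℤ) : ℚ) = g * ((φ (p • t'.1 + q • t'.2) : ℤ) : ℚ) := by
      rw [← htar, ← htar, h]
    have h4 := mul_left_cancel₀ hg h3
    have h5 : φ (p • t.1 + q • t.2) = φ (p • t'.1 + q • t'.2) := by exact_mod_cast h4
    have h6 := hφ (mem_coe.2 (mem_image_of_mem _ ht)) (mem_coe.2 (mem_image_of_mem _ ht')) h5
    exact determined hcop hp hq hne height_dvd hA ht ht' h6
  refine ⟨A.image ψ, ?_, ?_, ?_⟩
  · apply card_image_of_injOn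
    intro t ht t' ht' h
    exact hinjT ht ht' (by simp only [h])
  · rw [card_proj, image_image]
    exact card_image_of_injOn hinjT
  · have key : ∀ (s : Option ℚ) (f : (ι → ℤ) × (ι → ℤ) → (ι → ℤ)) (c : ℤ),
        (∀ t, (vec s).1 * (ψ t).1 + (vec s).2 * (ψ t).2 = c * φ (f t)) →
        (∀ t ∈ A, ∀ t' ∈ A, red (height r) (f t) = red (height r) (f t') → f t = f t') →
        (proj s (A.image ψ)).card ≤ height r ^ Fintype.card ι := by
      intro s f c hc hf
      rw [card_proj, image_image]
      refine le_trans (le_of_eq ?_) (card_image_le_of_red A f (fun u => c * φ u) hf)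
      congr 1
      apply image_congr
      intro t _
      exact hc t
    have k0 := key (r 0) Prod.fst (-br (r 0) (r 2) * br (r 0) (r 1))
      (fun t => by simp only [hψ, hb02, hb12, br]; ring) hA.1
    have k1 := key (r 1) Prod.snd (br (r 1) (r 2) * br (r 0) (r 1))
      (fun t => by simp only [hψ, hb02, hb12, br]; ring) hA.2.1
    have k2 := key (r 2) (fun t => t.1 + t.2) (br (r 0) (r 2) * br (r 1) (r 2))
      (fun t => by simp only [hψ, hb02, hb12, br, map_add]; ring) hA.2.2
    intro i
    fin_cases i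
    · exact k0
    · exact k1
    · exact k2

/-! ### the lower bound -/

lemma log_ratio_pos : 0 < Real.log (2 / Real.sqrt 3) := by
  apply Real.log_pos
  rw [lt_div_iff₀ (by positivity), one_mul]
  rw [show (2 : ℝ) = Real.sqrt 4 by
    rw [show (4 : ℝ) = 2 ^ 2 by norm_num, Real.sqrt_sq (by norm_num)]]
  exact Real.sqrt_lt_sqrt (by norm_num) (by norm_num)

lemma log_ratio_le : Real.log (2 / Real.sqrt 3) < 2 * Real.log 2 := by
  have h1 : (1 : ℝ) ≤ Real.sqrt 3 := Real.one_le_sqrt.2 (by norm_num)
  have h2 : Real.log (2 / Real.sqrt 3) ≤ Real.log 2 := by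
    apply Real.log_le_log (by positivity)
    exact div_le_self (by norm_num) h1
  have := Real.log_pos (show (1 : ℝ) < 2 by norm_num)
  linarith

lemma lower (hinj : Function.Injective r) (hr : ∀ i, r i ≠ some (-1)) {c : ℝ}
    (h : HasExponent r c) :
    2 - Real.log (2 / Real.sqrt 3) / Real.log (height r) ≤ c := by
  classical
  obtain ⟨C, hC⟩ := h
  by_contra hcon
  push Not at hcon
  have h2 := two_le_height hinj hr
  have : NeZero (height r) := ⟨by omega⟩
  set m := height r with hm
  have hm2 : (2 : ℝ) ≤ m := by exact_mod_cast h2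
  have hm0 : (0 : ℝ) < m := by linarith
  have hlm : Real.log 2 ≤ Real.log m := Real.log_le_log (by norm_num) hm2
  have hl2 : 0 < Real.log 2 := Real.log_pos (by norm_num)
  have hlm0 : 0 < Real.log m := by linarith
  have hs : 0 < Real.sqrt 3 := by positivity
  have hθ0 : 0 < 2 - Real.log (2 / Real.sqrt 3) / Real.log m := by
    rw [sub_pos, div_lt_iff₀ hlm0]
    have := log_ratio_le
    linarith
  set c' := max c 0 with hc'
  have hc'θ : c' < 2 - Real.log (2 / Real.sqrt 3) / Real.log m := max_lt hcon hθ0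
  have hc'0 : 0 ≤ c' := le_max_right _ _
  have hlt : (m : ℝ) ^ c' < Real.sqrt 3 / 2 * (m : ℝ) ^ 2 := by
    rw [← Real.log_lt_log_iff (by positivity) (by positivity), Real.log_rpow hm0,
      Real.log_mul (by positivity) (by positivity), Real.log_pow]
    have e : Real.log (Real.sqrt 3 / 2) = - Real.log (2 / Real.sqrt 3) := by
      rw [← Real.log_inv, inv_div]
    rw [e]
    rw [lt_sub_iff_add_lt, ← lt_sub_iff_add_lt', div_lt_iff₀ hlm0] at hc'θ
    push_cast
    linarith
  obtain ⟨b, hb1, hb2⟩ := exists_between hlt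
  have h1m : 1 ≤ (m : ℝ) ^ c' := Real.one_le_rpow (by linarith) hc'0
  have hb0 : 0 < b := by linarith
  obtain ⟨n0, hn0⟩ := exists_lifts m b (by linarith) hb2
  have hlim := tendsto_pow_atTop_atTop_of_one_lt (show 1 < b / (m : ℝ) ^ c' by
    rwa [one_lt_div (by linarith)])
  obtain ⟨n1, hn1⟩ := eventually_atTop.1 (hlim.eventually (eventually_gt_atTop |C|))
  set k := max n0 n1 with hk
  obtain ⟨A, hA, hAc⟩ := hn0 k (le_max_left _ _)
  have hgt := hn1 (3 * k) (by have := le_max_right n0 n1; omega)
  obtain ⟨B, hB1, hB2, hB3⟩ := construct hinj hr A hA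
  have hApos : (0 : ℝ) < A.card := lt_of_lt_of_le (by positivity) hAc
  have hBne : B.Nonempty := by
    rw [← card_pos, hB1]
    exact_mod_cast hApos
  have hmax1 : 1 ≤ maxProj r B := by
    have h3 : 1 ≤ (proj (r 0) B).card := by
      rw [card_proj]
      exact card_pos.2 (hBne.image _)
    exact h3.trans (le_sup (f := fun i => (proj (r i) B).card) (mem_univ 0))
  have hmax2 : maxProj r B ≤ m ^ (3 * k) := by
    apply Finset.sup_le
    intro i _
    have := hB3 i
    rwa [Fintype.card_prod, Fintype.card_fin, Fintype.card_fin] at this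
  have hmax1' : (1 : ℝ) ≤ maxProj r B := by exact_mod_cast hmax1
  have hmax2' : (maxProj r B : ℝ) ≤ (m : ℝ) ^ (3 * k) := by exact_mod_cast hmax2
  have h5 : (maxProj r B : ℝ) ^ c ≤ ((m : ℝ) ^ c') ^ (3 * k) := by
    calc (maxProj r B : ℝ) ^ c ≤ (maxProj r B : ℝ) ^ c' :=
          Real.rpow_le_rpow_of_exponent_le hmax1' (le_max_left _ _)
      _ ≤ ((m : ℝ) ^ (3 * k)) ^ c' := Real.rpow_le_rpow (by linarith) hmax2' hc'0
      _ = ((m : ℝ) ^ c') ^ (3 * k) := by
        rw [← Real.rpow_natCast, ← Real.rpow_mul hm0.le, mul_comm, Real.rpow_mul hm0.le,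
          Real.rpow_natCast]
  have h6 := hC B hBne
  rw [hB2] at h6
  have h7 : C * (maxProj r B : ℝ) ^ c ≤ |C| * ((m : ℝ) ^ c') ^ (3 * k) :=
    mul_le_mul (le_abs_self C) h5 (by positivity) (abs_nonneg C)
  have h8 : b ^ (3 * k) ≤ |C| * ((m : ℝ) ^ c') ^ (3 * k) := hAc.trans (h6.trans h7)
  rw [div_pow, lt_div_iff₀ (by positivity)] at hgt
  linarith

/-! ### numerical values -/

lemma two_log : 2 * Real.log (2 / Real.sqrt 3) = Real.log (4 / 3) := by
  have : (2 : ℝ) * Real.log (2 / Real.sqrt 3) = Real.log ((2 / Real.sqrt 3) ^ 2) := by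
    rw [Real.log_pow]
    norm_num
  rw [this, div_pow, Real.sq_sqrt (by norm_num)]
  norm_num

lemma theta_two : 2 - Real.log (2 / Real.sqrt 3) / Real.log 2 = Real.log 12 / Real.log 4 := by
  have h4 : Real.log 4 = 2 * Real.log 2 := by
    rw [show (4 : ℝ) = 2 ^ 2 by norm_num, Real.log_pow]; norm_num
  have h12 : Real.log 12 = 2 * Real.log 4 - Real.log (4 / 3) := by
    rw [show (12 : ℝ) = 4 ^ 2 / (4 / 3) by norm_num, Real.log_div (by norm_num) (by norm_num),
      Real.log_pow]
    norm_num
  have hl2 : 0 < Real.log 2 := Real.log_pos (by norm_num)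
  rw [h12, ← two_log, h4]
  field_simp

lemma theta_two_gt : (1.7924 : ℝ) < 2 - Real.log (2 / Real.sqrt 3) / Real.log 2 := by
  have hl2 : 0 < Real.log 2 := Real.log_pos (by norm_num)
  have h1 := two_log
  have h2 : 53 * Real.log (4 / 3) < 22 * Real.log 2 := by
    have e1 : 53 * Real.log (4 / 3) = Real.log ((4 / 3) ^ 53) := by
      rw [Real.log_pow]; norm_num
    have e2 : 22 * Real.log 2 = Real.log (2 ^ 22) := by
      rw [Real.log_pow]; norm_num
    rw [e1, e2]
    apply Real.log_lt_log (by positivity)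
    rw [div_pow, div_lt_iff₀ (by positivity)]
    norm_num
  rw [lt_sub_iff_add_lt, ← lt_sub_iff_add_lt', div_lt_iff₀ hl2]
  linarith

lemma theta_three_gt : (1.869 : ℝ) < 2 - Real.log (2 / Real.sqrt 3) / Real.log 3 := by
  have hl3 : 0 < Real.log 3 := Real.log_pos (by norm_num)
  have h1 := two_log
  have h2 : 42 * Real.log (4 / 3) < 11 * Real.log 3 := by
    have e1 : 42 * Real.log (4 / 3) = Real.log ((4 / 3) ^ 42) := by
      rw [Real.log_pow]; norm_num
    have e2 : 11 * Real.log 3 = Real.log (3 ^ 11) := by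
      rw [Real.log_pow]; norm_num
    rw [e1, e2]
    apply Real.log_lt_log (by positivity)
    rw [div_pow, div_lt_iff₀ (by positivity)]
    norm_num
  rw [lt_sub_iff_add_lt, ← lt_sub_iff_add_lt', div_lt_iff₀ hl3]
  linarith

/-- the bound grows with the height -/
lemma theta_mono {a b : ℝ} (ha : 1 < a) (hab : a ≤ b) :
    2 - Real.log (2 / Real.sqrt 3) / Real.log a ≤ 2 - Real.log (2 / Real.sqrt 3) / Real.log b := by
  have h1 : 0 < Real.log a := Real.log_pos ha
  have h2 : Real.log a ≤ Real.log b := Real.log_le_log (by linarith) hab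
  have h3 := div_le_div_of_nonneg_left log_ratio_pos.le h1 h2
  linarith

/-! ### the upper bound for harmonic triples -/

/-- The library bound for `0, 1, ∞` in terms of two integer-valued functions. -/
lemma upper_fun (A : Finset (ℤ × ℤ)) (f g : ℤ × ℤ → ℤ) (M : ℝ)
    (hf : ((A.image f).card : ℝ) ≤ M) (hg : ((A.image g).card : ℝ) ≤ M)
    (hfg : ((A.image (fun z => f z + g z)).card : ℝ) ≤ M) :
    ((A.image (fun z => f z - g z)).card : ℝ) ≤ M ^ (82 / 45 : ℝ) := by
  classical
  set B := A.image (fun z => (f z, g z)) with hB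
  have h := (Pool.Agent.Results.MP_169869_co.ThreeSlopes.result B).2
  have e : ∀ (k : ℚ) (l : ℤ × ℤ → ℤ), (∀ z, (f z : ℚ) + k * (g z : ℚ) = (l z : ℚ)) →
      (Pool.Agent.Results.MP_169869_co.ThreeSlopes.proj k B).card = (A.image l).card := by
    intro k l hl
    have : Pool.Agent.Results.MP_169869_co.ThreeSlopes.proj k B =
        (A.image l).image (fun w : ℤ => (w : ℚ)) := by
      unfold Pool.Agent.Results.MP_169869_co.ThreeSlopes.proj
      rw [hB, image_image, image_image]
      apply image_congr
      intro z _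
      exact hl z
    rw [this, card_image_of_injective _ Int.cast_injective]
  have e' : (Pool.Agent.Results.MP_169869_co.ThreeSlopes.projInf B).card = (A.image g).card := by
    have : Pool.Agent.Results.MP_169869_co.ThreeSlopes.projInf B =
        (A.image g).image (fun w : ℤ => (w : ℚ)) := by
      unfold Pool.Agent.Results.MP_169869_co.ThreeSlopes.projInf
      rw [hB, image_image, image_image]
      rfl
    rw [this, card_image_of_injective _ Int.cast_injective]
  rw [e (-1) (fun z => f z - g z) (fun z => by push_cast; ring),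
    e 0 f (fun z => by ring), e 1 (fun z => f z + g z) (fun z => by push_cast; ring), e'] at h
  exact h.trans (Real.rpow_le_rpow (le_max_of_le_right (Nat.cast_nonneg _))
    (max_le (max_le hf hfg) hg) (by norm_num))

lemma upper (hinj : Function.Injective r) (hr : ∀ i, r i ≠ some (-1)) (hh : height r = 2)
    (A : Finset (ℤ × ℤ)) :
    ((proj (some (-1)) A).card : ℝ) ≤ (maxProj r A : ℝ) ^ (82 / 45 : ℝ) := by
  classical
  obtain ⟨h1, h2, g, hg, hgP, hgQ⟩ := ratio_spec hinj hr
  have h3 := (crossRatio r).den_pos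
  set M : ℝ := (maxProj r A : ℝ) with hM
  have hle : ∀ i, ((proj (r i) A).card : ℝ) ≤ M := by
    intro i
    rw [hM]
    exact_mod_cast le_sup (f := fun i => (proj (r i) A).card) (mem_univ i)
  set P : ℤ := br (r 0) (r 2) * br (r 1) (some (-1)) with hP
  set Q : ℤ := br (r 1) (r 2) * br (r 0) (some (-1)) with hQ
  have hP0 : P ≠ 0 := mul_ne_zero (br_ne (hinj.ne (by decide))) (br_ne (hr 1))
  have hQ0 : Q ≠ 0 := mul_ne_zero (br_ne (hinj.ne (by decide))) (br_ne (hr 0))
  have b01 : br (r 0) (r 1) ≠ 0 := br_ne (hinj.ne (by decide))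
  have b02 : br (r 0) (r 2) ≠ 0 := br_ne (hinj.ne (by decide))
  have b12 : br (r 1) (r 2) ≠ 0 := br_ne (hinj.ne (by decide))
  -- the three forms with sum zero
  let L : Option ℚ → ℤ × ℤ → ℤ := fun s z => (vec s).1 * z.1 + (vec s).2 * z.2
  let u : ℤ × ℤ → ℤ := fun z => br (r 1) (r 2) * L (r 0) z
  let v : ℤ × ℤ → ℤ := fun z => -br (r 0) (r 2) * L (r 1) z
  let w : ℤ × ℤ → ℤ := fun z => br (r 0) (r 1) * L (r 2) z
  have huvw : ∀ z, u z + v z + w z = 0 := by
    intro z
    simp only [u, v, w, L, br]
    ring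
  have hD : ∀ z, -(br (r 0) (r 1) * br (r 1) (r 2) * br (r 0) (r 2)) * L (some (-1)) z =
      P * u z + Q * v z := by
    intro z
    simp only [u, v, L, hP, hQ, br]
    ring
  have hscale : ∀ (c : ℤ) (hc : c ≠ 0) (f f' : ℤ × ℤ → ℤ), (∀ z, f z = c * f' z) →
      (A.image f).card = (A.image f').card := by
    intro c hc f f' hff
    have : A.image f = (A.image f').image (fun w => c * w) := by
      rw [image_image]
      exact image_congr fun z _ => hff z
    rw [this, card_image_of_injective _ (mul_right_injective₀ hc)]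
  have hu : ((A.image u).card : ℝ) ≤ M := by
    rw [hscale _ b12 u (L (r 0)) (fun z => rfl), ← card_proj]
    exact hle 0
  have hv : ((A.image v).card : ℝ) ≤ M := by
    rw [hscale _ (neg_ne_zero.2 b02) v (L (r 1)) (fun z => rfl), ← card_proj]
    exact hle 1
  have hw : ((A.image w).card : ℝ) ≤ M := by
    rw [hscale _ b01 w (L (r 2)) (fun z => rfl), ← card_proj]
    exact hle 2
  have hneg : ∀ (f f' : ℤ × ℤ → ℤ), (∀ z, f z = - f' z) →
      (A.image f).card = (A.image f').card := by
    intro f f' hff
    exact hscale (-1) (by norm_num) f f' (fun z => by rw [hff z]; ring)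
  have hPQ : P = - Q ∨ P = 2 * Q ∨ Q = 2 * P := by
    have hcase : (crossRatio r).num = -((crossRatio r).den : ℤ) ∨
        (crossRatio r).num = 2 * ((crossRatio r).den : ℤ) ∨
        ((crossRatio r).den : ℤ) = 2 * (crossRatio r).num := by
      have hcop : (crossRatio r).num.natAbs.Coprime (crossRatio r).den := (crossRatio r).reduced
      unfold height at hh
      have a1 : (crossRatio r).num.natAbs ≤ 2 := hh ▸ le_max_left _ _
      have a2 : (crossRatio r).den ≤ 2 := hh ▸ (le_max_left _ _).trans (le_max_right _ _)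
      have a3 : ((crossRatio r).num - ((crossRatio r).den : ℤ)).natAbs ≤ 2 :=
        hh ▸ (le_max_right _ _).trans (le_max_right _ _)
      generalize (crossRatio r).num = p at *
      generalize (crossRatio r).den = q at *
      have hp1 : -2 ≤ p := by omega
      have hp2 : p ≤ 2 := by omega
      interval_cases q <;> interval_cases p <;> simp_all
    rcases hcase with hc | hc | hc
    · left
      have : (P : ℚ) = -(Q : ℚ) := by rw [hgP, hgQ, hc]; push_cast; ring
      exact_mod_cast this
    · right; left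
      have : (P : ℚ) = 2 * (Q : ℚ) := by rw [hgP, hgQ, hc]; push_cast; ring
      exact_mod_cast this
    · right; right
      have hc' : ((crossRatio r).den : ℚ) = 2 * (crossRatio r).num := by exact_mod_cast hc
      have : (Q : ℚ) = 2 * (P : ℚ) := by rw [hgP, hgQ, hc']; ring
      exact_mod_cast this
  have hfin : ∀ f : ℤ × ℤ → ℤ, ∀ c : ℤ, c ≠ 0 → (∀ z, P * u z + Q * v z = c * f z) →
      (proj (some (-1)) A).card = (A.image f).card := by
    intro f c hc hf
    rw [card_proj]
    have e1 := hscale (-(br (r 0) (r 1) * br (r 1) (r 2) * br (r 0) (r 2)))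
      (neg_ne_zero.2 (mul_ne_zero (mul_ne_zero b01 b12) b02)) (fun z => P * u z + Q * v z)
      (L (some (-1))) (fun z => (hD z).symm)
    have e2 := hscale c hc (fun z => P * u z + Q * v z) f hf
    rw [← e2, e1]
  rcases hPQ with h | h | h
  · rw [hfin (fun z => u z - v z) (-Q) (neg_ne_zero.2 hQ0) (fun z => by rw [h]; ring)]
    refine upper_fun A u v M hu hv ?_
    rw [hneg (fun z => u z + v z) w (fun z => by linarith [huvw z])]
    exact hw
  · rw [hfin (fun z => u z - w z) Q hQ0 (fun z => by
      have := huvw z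
      rw [h]
      have hwz : w z = - u z - v z := by linarith
      rw [hwz]; ring)]
    refine upper_fun A u w M hu hw ?_
    rw [hneg (fun z => u z + w z) v (fun z => by linarith [huvw z])]
    exact hv
  · rw [hfin (fun z => v z - w z) P hP0 (fun z => by
      have := huvw z
      rw [h]
      have hwz : w z = - u z - v z := by linarith
      rw [hwz]; ring)]
    refine upper_fun A v w M hv hw ?_
    rw [hneg (fun z => v z + w z) u (fun z => by linarith [huvw z])]
    exact hu

/-- **Theorem.** Let `r 0`, `r 1`, `r 2` be three different slopes in `ℚ ∪ {∞}`, different from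
`-1`, and let `h ≥ 2` be the height of their cross-ratio with `-1`. Every exponent `c` of this
triple is at least `2 - log (2/√3) / log h`; for the harmonic triples (`h = 2`) this is
`log_4 12 = 1.7924...`. The triple has the exponent `82/45 = 1.8222...` if and only if it is
harmonic. -/
theorem result (r : Fin 3 → Option ℚ) (hinj : Function.Injective r)
    (hr : ∀ i, r i ≠ some (-1)) :
    2 ≤ height r ∧
      (∀ c : ℝ, HasExponent r c → 2 - Real.log (2 / Real.sqrt 3) / Real.log (height r) ≤ c) ∧
      (HasExponent r (82 / 45) ↔ height r = 2) := by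
  have h2 := two_le_height hinj hr
  refine ⟨h2, fun c hc => lower hinj hr hc, fun hc => ?_, fun hh => ⟨1, fun A _ => ?_⟩⟩
  · by_contra hh
    have h3 : (1.869 : ℝ) < 82 / 45 := by
      refine lt_of_lt_of_le theta_three_gt (le_trans ?_ (lower hinj hr hc))
      exact theta_mono (by norm_num) (by exact_mod_cast (by omega : 3 ≤ height r))
    norm_num at h3
  · rw [one_mul]
    exact upper hinj hr hh A

/-- In particular no exponent of three slopes is smaller than `log_4 12 > 1.7924`. -/
theorem any_triple (r : Fin 3 → Option ℚ) (hinj : Function.Injective r)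
    (hr : ∀ i, r i ≠ some (-1)) {c : ℝ} (hc : HasExponent r c) :
    Real.log 12 / Real.log 4 ≤ c ∧ 1.7924 < c := by
  have h2 := two_le_height hinj hr
  have h3 : Real.log 12 / Real.log 4 ≤ c := by
    rw [← theta_two]
    refine le_trans ?_ (lower hinj hr hc)
    exact theta_mono (by norm_num) (by exact_mod_cast h2)
  refine ⟨h3, lt_of_lt_of_le ?_ h3⟩
  rw [← theta_two]
  exact theta_two_gt

end Pool.Agent.Results.MP_169869_co.HarmonicTriples
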