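import Pool.Agent.H22.GH.Main
import Pool.Agent.H22.GH.Parab2
import Pool.Agent.H22.GH.ParabAsymGH

/-!
# Heights of slopes and lower bounds for sums-differences exponents

If `|π₋₁(A)|` is bounded by the power `c ∈ [1, 2]` of the largest of the `|π_r(A)|`, `r ∈ S`, then
`(2 - c) * ∑ H(-1) ≤ c * ∑ H(r)` for some `r ∈ S`, for every finite family of heights `H` on the
slopes. A height is given by a positive definite binary quadratic form `q` and an integer matrix `G`
with nonzero determinant:
`H(r) = log (q(v G) / (gcd(v G) ^ 2 * √disc q))` for the primitive integer vector `v` of the slope.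
Two heights give the lower bound `log 50 / log 10 = 1.69897...` for the slopes `0, 1, 2, ∞`.

If the numerators and denominators of all the slopes in `S` are at most `H` in absolute value, then
every exponent of `S` is at least `1 + 1 / (24 log (7 log (3 H + 1)))`, and at least
`1 + (log 2 - o(1)) / log log H` (points of a parabola modulo a product of primes): an exponent
`1 + ε` needs a slope whose numerator or denominator is at least `exp (exp (c / ε))`.
-/

set_option autoImplicit false

namespace Pool.Agent.Results.MP_169869_co.HeightCriterion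

open Finset

/-- The projection `π_r(A)` of `A`; `none` stands for the slope `∞`. -/
def proj (r : Option ℚ) (A : Finset (ℤ × ℤ)) : Finset ℚ :=
  A.image fun z => match r with
    | some t => (z.1 : ℚ) + t * (z.2 : ℚ)
    | none => (z.2 : ℚ)

/-- The size of the largest projection of `A` with a slope in `S`. -/
def maxProj (S : Finset (Option ℚ)) (A : Finset (ℤ × ℤ)) : ℕ := S.sup fun r => (proj r A).card

/-- `c` is an exponent for the slopes `S`: for every `η > 0` there is a constant `C` such that
`|π₋₁(A)| ≤ C * (max_{r ∈ S} |π_r(A)|) ^ (c + η)` for all finite nonempty `A`. -/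
def HasExponent (S : Finset (Option ℚ)) (c : ℝ) : Prop :=
  ∀ η : ℝ, 0 < η → ∃ C : ℝ, ∀ A : Finset (ℤ × ℤ), A.Nonempty →
    ((proj (some (-1)) A).card : ℝ) ≤ C * (maxProj S A : ℝ) ^ (c + η)

/-- The data of a height: a positive definite form `a X ^ 2 + 2 b X Y + d Y ^ 2` with real
coefficients and an integer matrix with the rows `x`, `y` and nonzero determinant. -/
structure HeightData where
  (a b d : ℝ)
  (x y : ℤ × ℤ)
  (pos : 0 < a)
  (disc : 0 < a * d - b ^ 2)
  (det : x.1 * y.2 - x.2 * y.1 ≠ 0)

/-- The primitive integer vector of a slope, multiplied by the matrix: `q x + p y` for the slope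
`p / q` in lowest terms and `y` for the slope `∞`. -/
def HeightData.vec (D : HeightData) (r : Option ℚ) : ℤ × ℤ := match r with
  | some t => (t.den : ℤ) • D.x + t.num • D.y
  | none => D.y

/-- The height of a slope: `log` of the value of the form at `vec r`, divided by the square of the
greatest common divisor of the coordinates of `vec r` and by the square root of the determinant of
the form. -/
noncomputable def HeightData.height (D : HeightData) (r : Option ℚ) : ℝ :=
  Real.log ((D.a * (D.vec r).1 ^ 2 + 2 * D.b * (D.vec r).1 * (D.vec r).2 + D.d * (D.vec r).2 ^ 2) /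
    ((Int.gcd (D.vec r).1 (D.vec r).2 : ℝ) ^ 2 * Real.sqrt (D.a * D.d - D.b ^ 2)))

open Pool.Agent.Results.MP_169869_co.GeometricMeans (MaxBound WeakBound)
open Pool.Agent.Results.MP_169869_co.FibreMultiplicity.Aux4 (cu cv)

lemma proj_eq (r : Option ℚ) (A : Finset (ℤ × ℤ)) :
    proj r A = Pool.Agent.Results.MP_169869_co.GeometricMeans.proj r A := by
  unfold proj Pool.Agent.Results.MP_169869_co.GeometricMeans.proj
  refine image_congr fun z _ => ?_
  cases r <;> rfl

lemma vec_eq (D : HeightData) (r : Option ℚ) : D.vec r = cu r • D.x + cv r • D.y := by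
  cases r with
  | none => simp [HeightData.vec, cu, cv]
  | some t => rfl

lemma height_eq (D : HeightData) (r : Option ℚ) :
    D.height r = Pool.Agent.H22.GH.hgt D.a D.b D.d (cu r • D.x + cv r • D.y) := by
  rw [← vec_eq]
  rfl

lemma weak_of {S : Finset (Option ℚ)} (hS : S.Nonempty) {c : ℝ} (h : HasExponent S c) :
    WeakBound S c := by
  intro η hη
  obtain ⟨C, hC⟩ := h η hη
  refine ⟨C, fun A hA => ?_⟩
  obtain ⟨r, hr, hr'⟩ := exists_mem_eq_sup S hS (fun r => (proj r A).card)
  refine ⟨r, hr, ?_⟩
  have h1 := hC A hA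
  unfold maxProj at h1
  rw [hr', proj_eq, proj_eq] at h1
  exact h1

lemma mono {S : Finset (Option ℚ)} (hS : S.Nonempty) {c c' : ℝ} (hcc : c ≤ c')
    (h : HasExponent S c) : HasExponent S c' := by
  intro η hη
  obtain ⟨C, hC⟩ := h η hη
  refine ⟨|C|, fun A hA => ?_⟩
  obtain ⟨r, hr⟩ := hS
  have h0 : 1 ≤ (proj r A).card := card_pos.2 (hA.image _)
  have h1 : 1 ≤ maxProj S A := h0.trans (le_sup (f := fun r => (proj r A).card) hr)
  have h2 : (1 : ℝ) ≤ maxProj S A := by exact_mod_cast h1
  calc ((proj (some (-1)) A).card : ℝ) ≤ C * (maxProj S A : ℝ) ^ (c + η) := hC A hA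
    _ ≤ |C| * (maxProj S A : ℝ) ^ (c' + η) := by
      refine mul_le_mul (le_abs_self C) ?_ (by positivity) (abs_nonneg C)
      exact Real.rpow_le_rpow_of_exponent_le h2 (by linarith)

/-- If `S` is empty there is no exponent. -/
lemma nonempty_of {S : Finset (Option ℚ)} {c : ℝ} (hc : 0 ≤ c) (h : HasExponent S c) :
    S.Nonempty := by
  by_contra hS
  rw [not_nonempty_iff_eq_empty] at hS
  obtain ⟨C, hC⟩ := h 1 one_pos
  have h1 := hC {(0, 0)} (singleton_nonempty _)
  rw [hS] at h1
  have h2 : (maxProj ∅ {((0 : ℤ), (0 : ℤ))} : ℝ) = 0 := by simp [maxProj]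
  rw [h2, Real.zero_rpow (by linarith), mul_zero] at h1
  have h3 : 1 ≤ (proj (some (-1)) {((0 : ℤ), (0 : ℤ))}).card :=
    card_pos.2 ((singleton_nonempty _).image _)
  have h4 : (1 : ℝ) ≤ (proj (some (-1)) {((0 : ℤ), (0 : ℤ))}).card := by exact_mod_cast h3
  linarith

theorem criterion {S : Finset (Option ℚ)} (hS : some (-1) ∉ S) {c : ℝ} (hc1 : 1 ≤ c)
    (hc2 : c ≤ 2) (h : HasExponent S c) {J : Type*} [Fintype J] (D : J → HeightData) :
    ∃ r ∈ S, (2 - c) * ∑ j, (D j).height (some (-1)) ≤ c * ∑ j, (D j).height r := by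
  have hne := nonempty_of (by linarith) h
  have h1 : MaxBound S c :=
    ((Pool.Agent.Results.MP_169869_co.GeometricMeans.result.1 S c (by linarith)).1).1
      (weak_of hne h)
  obtain ⟨r, hr, h2⟩ := Pool.Agent.H22.GH.criterion hS hc1 hc2 h1 (fun j => (D j).a)
    (fun j => (D j).b) (fun j => (D j).d) (fun j => (D j).pos) (fun j => (D j).disc)
    (fun j => (D j).x) (fun j => (D j).y) (fun j => (D j).det)
  refine ⟨r, hr, ?_⟩
  have e : ∀ s : Option ℚ, ∑ j, (D j).height s = ∑ j, Pool.Agent.H22.GH.hgt (D j).a (D j).b (D j).d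
      (cu s • (D j).x + cv s • (D j).y) := fun s => sum_congr rfl fun j _ => height_eq (D j) s
  have e1 : ∀ j, (D j).x - (D j).y = cu (some (-1)) • (D j).x + cv (some (-1)) • (D j).y := by
    intro j
    simp [cu, cv, sub_eq_add_neg]
  simp only [e1] at h2
  rw [e, e]
  exact h2

/-- The consequence for two heights that are opposite to each other on the slopes in `S`. -/
lemma two_heights {S : Finset (Option ℚ)} (hS : some (-1) ∉ S) (hne : S.Nonempty) {P Q : ℝ}
    (hQ : 1 ≤ Q) (hPQ : Q < P) (D D' : HeightData)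
    (h1 : D.height (some (-1)) + D'.height (some (-1)) = Real.log P)
    (h2 : ∀ r ∈ S, D.height r + D'.height r = Real.log Q) {c : ℝ} (h : HasExponent S c) :
    2 * Real.log P / (Real.log P + Real.log Q) ≤ c := by
  have hlQ : 0 ≤ Real.log Q := Real.log_nonneg hQ
  have hlPQ : Real.log Q < Real.log P := Real.log_lt_log (by linarith) hPQ
  have key : ∀ c' : ℝ, 1 ≤ c' → c' ≤ 2 → HasExponent S c' →
      (2 - c') * Real.log P ≤ c' * Real.log Q := by
    intro c' h3 h4 h5
    obtain ⟨r, hr, h6⟩ := criterion hS h3 h4 h5 (J := Fin 2) ![D, D']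
    rw [Fin.sum_univ_two, Fin.sum_univ_two] at h6
    simp only [Matrix.cons_val_zero, Matrix.cons_val_one] at h6
    rw [h1, h2 r hr] at h6
    exact h6
  rw [div_le_iff₀ (by linarith)]
  rcases lt_or_ge c 1 with hc | hc
  · have := key 1 le_rfl (by norm_num) (mono hne hc.le h)
    linarith
  rcases le_or_gt c 2 with hc' | hc'
  · have := key c hc hc' h
    linarith
  · nlinarith

/-- The first height for `0, 1, 2, ∞`. -/
noncomputable def A1 : HeightData where
  a := 1
  b := 0
  d := 1
  x := (2, 0)
  y := (-1, 1)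
  pos := by norm_num
  disc := by norm_num
  det := by norm_num

/-- The second height for `0, 1, 2, ∞`. -/
noncomputable def A2 : HeightData where
  a := 1
  b := 0
  d := 1
  x := (1, -1)
  y := (0, 1)
  pos := by norm_num
  disc := by norm_num
  det := by norm_num

/-- The first height for `0, 1, 2, 3, ∞`. -/
noncomputable def B1 : HeightData where
  a := 3
  b := -3 / 2
  d := 1
  x := (1, 0)
  y := (0, 1)
  pos := by norm_num
  disc := by norm_num
  det := by norm_num

/-- The second height for `0, 1, 2, 3, ∞`. -/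
noncomputable def B2 : HeightData where
  a := 1
  b := -3 / 2
  d := 3
  x := (3, 0)
  y := (0, 1)
  pos := by norm_num
  disc := by norm_num
  det := by norm_num

/-- The first height for `0, 1, 2, 3, 4, ∞`. -/
noncomputable def C1 : HeightData where
  a := 2
  b := -2
  d := 3
  x := (3, 0)
  y := (0, 1)
  pos := by norm_num
  disc := by norm_num
  det := by norm_num

/-- The second height for `0, 1, 2, 3, 4, ∞`. -/
noncomputable def C2 : HeightData where
  a := 9
  b := -5
  d := 3
  x := (2, 0)
  y := (1, 3)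
  pos := by norm_num
  disc := by norm_num
  det := by norm_num

/-- the sum of two heights from the values of the forms -/
lemma sum_eq (D D' : HeightData) (r : Option ℚ) {u v : ℤ × ℤ} {g g' : ℕ} {q q' δ R : ℝ}
    (hu : D.vec r = u) (hv : D'.vec r = v) (hg : Int.gcd u.1 u.2 = g) (hg' : Int.gcd v.1 v.2 = g')
    (hδ : D.a * D.d - D.b ^ 2 = δ) (hδ' : D'.a * D'.d - D'.b ^ 2 = δ) (hs : 0 < δ)
    (hq : D.a * (u.1 : ℝ) ^ 2 + 2 * D.b * u.1 * u.2 + D.d * (u.2 : ℝ) ^ 2 = q)
    (hq' : D'.a * (v.1 : ℝ) ^ 2 + 2 * D'.b * v.1 * v.2 + D'.d * (v.2 : ℝ) ^ 2 = q')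
    (h0 : 0 < q) (h0' : 0 < q') (hgp : 0 < g) (hgp' : 0 < g')
    (hR : q * q' / ((g : ℝ) ^ 2 * (g' : ℝ) ^ 2 * δ) = R) :
    D.height r + D'.height r = Real.log R := by
  have hgR : (0 : ℝ) < g := by exact_mod_cast hgp
  have hgR' : (0 : ℝ) < g' := by exact_mod_cast hgp'
  have hsq : 0 < Real.sqrt δ := Real.sqrt_pos.2 hs
  unfold HeightData.height
  rw [hu, hv, hg, hg', hδ, hδ', hq, hq', ← Real.log_mul (by positivity) (by positivity), ← hR]
  congr 1
  rw [div_mul_div_comm]
  congr 1
  have := Real.mul_self_sqrt hs.le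
  linear_combination ((g : ℝ) ^ 2 * (g' : ℝ) ^ 2) * this

lemma A_neg : A1.height (some (-1)) + A2.height (some (-1)) = Real.log 50 := by
  exact sum_eq A1 A2 _ (u := (3, -1)) (v := (1, -2)) (g := 1) (g' := 1) (q := 10) (q' := 5) (δ := 1)
      (by norm_num [HeightData.vec, A1])
      (by norm_num [HeightData.vec, A2]) (by decide) (by decide) (by norm_num [A1])
      (by norm_num [A2]) (by norm_num) (by norm_num [A1]) (by norm_num [A2]) (by norm_num)
      (by norm_num) (by norm_num) (by norm_num) (by norm_num)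

lemma A_pos : ∀ r ∈ ({some 0, some 1, some 2, none} : Finset (Option ℚ)),
    A1.height r + A2.height r = Real.log 2 := by
  intro r hr
  simp only [mem_insert, mem_singleton] at hr
  rcases hr with rfl | rfl | rfl | rfl
  · exact sum_eq A1 A2 _ (u := (2, 0)) (v := (1, -1)) (g := 2) (g' := 1) (q := 4) (q' := 2) (δ := 1)
      (by norm_num [HeightData.vec, A1])
      (by norm_num [HeightData.vec, A2]) (by decide) (by decide) (by norm_num [A1])
      (by norm_num [A2]) (by norm_num) (by norm_num [A1]) (by norm_num [A2]) (by norm_num)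
      (by norm_num) (by norm_num) (by norm_num) (by norm_num)
  · exact sum_eq A1 A2 _ (u := (1, 1)) (v := (1, 0)) (g := 1) (g' := 1) (q := 2) (q' := 1) (δ := 1)
      (by norm_num [HeightData.vec, A1])
      (by norm_num [HeightData.vec, A2]) (by decide) (by decide) (by norm_num [A1])
      (by norm_num [A2]) (by norm_num) (by norm_num [A1]) (by norm_num [A2]) (by norm_num)
      (by norm_num) (by norm_num) (by norm_num) (by norm_num)
  · exact sum_eq A1 A2 _ (u := (0, 2)) (v := (1, 1)) (g := 2) (g' := 1) (q := 4) (q' := 2) (δ := 1)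
      (by norm_num [HeightData.vec, A1])
      (by norm_num [HeightData.vec, A2]) (by decide) (by decide) (by norm_num [A1])
      (by norm_num [A2]) (by norm_num) (by norm_num [A1]) (by norm_num [A2]) (by norm_num)
      (by norm_num) (by norm_num) (by norm_num) (by norm_num)
  · exact sum_eq A1 A2 _ (u := (-1, 1)) (v := (0, 1)) (g := 1) (g' := 1) (q := 2) (q' := 1) (δ := 1)
      (by norm_num [HeightData.vec, A1])
      (by norm_num [HeightData.vec, A2]) (by decide) (by decide) (by norm_num [A1])
      (by norm_num [A2]) (by norm_num) (by norm_num [A1]) (by norm_num [A2]) (by norm_num)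
      (by norm_num) (by norm_num) (by norm_num) (by norm_num)

lemma B_neg : B1.height (some (-1)) + B2.height (some (-1)) = Real.log 196 := by
  exact sum_eq B1 B2 _ (u := (1, -1)) (v := (3, -1)) (g := 1) (g' := 1) (q := 7) (q' := 21) (δ := 3 / 4)
      (by norm_num [HeightData.vec, B1])
      (by norm_num [HeightData.vec, B2]) (by decide) (by decide) (by norm_num [B1])
      (by norm_num [B2]) (by norm_num) (by norm_num [B1]) (by norm_num [B2]) (by norm_num)
      (by norm_num) (by norm_num) (by norm_num) (by norm_num)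

lemma B_pos : ∀ r ∈ ({some 0, some 1, some 2, some 3, none} : Finset (Option ℚ)),
    B1.height r + B2.height r = Real.log 4 := by
  intro r hr
  simp only [mem_insert, mem_singleton] at hr
  rcases hr with rfl | rfl | rfl | rfl | rfl
  · exact sum_eq B1 B2 _ (u := (1, 0)) (v := (3, 0)) (g := 1) (g' := 3) (q := 3) (q' := 9) (δ := 3 / 4)
      (by norm_num [HeightData.vec, B1])
      (by norm_num [HeightData.vec, B2]) (by decide) (by decide) (by norm_num [B1])
      (by norm_num [B2]) (by norm_num) (by norm_num [B1]) (by norm_num [B2]) (by norm_num)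
      (by norm_num) (by norm_num) (by norm_num) (by norm_num)
  · exact sum_eq B1 B2 _ (u := (1, 1)) (v := (3, 1)) (g := 1) (g' := 1) (q := 1) (q' := 3) (δ := 3 / 4)
      (by norm_num [HeightData.vec, B1])
      (by norm_num [HeightData.vec, B2]) (by decide) (by decide) (by norm_num [B1])
      (by norm_num [B2]) (by norm_num) (by norm_num [B1]) (by norm_num [B2]) (by norm_num)
      (by norm_num) (by norm_num) (by norm_num) (by norm_num)
  · exact sum_eq B1 B2 _ (u := (1, 2)) (v := (3, 2)) (g := 1) (g' := 1) (q := 1) (q' := 3) (δ := 3 / 4)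
      (by norm_num [HeightData.vec, B1])
      (by norm_num [HeightData.vec, B2]) (by decide) (by decide) (by norm_num [B1])
      (by norm_num [B2]) (by norm_num) (by norm_num [B1]) (by norm_num [B2]) (by norm_num)
      (by norm_num) (by norm_num) (by norm_num) (by norm_num)
  · exact sum_eq B1 B2 _ (u := (1, 3)) (v := (3, 3)) (g := 1) (g' := 3) (q := 3) (q' := 9) (δ := 3 / 4)
      (by norm_num [HeightData.vec, B1])
      (by norm_num [HeightData.vec, B2]) (by decide) (by decide) (by norm_num [B1])
      (by norm_num [B2]) (by norm_num) (by norm_num [B1]) (by norm_num [B2]) (by norm_num)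
      (by norm_num) (by norm_num) (by norm_num) (by norm_num)
  · exact sum_eq B1 B2 _ (u := (0, 1)) (v := (0, 1)) (g := 1) (g' := 1) (q := 1) (q' := 3) (δ := 3 / 4)
      (by norm_num [HeightData.vec, B1])
      (by norm_num [HeightData.vec, B2]) (by decide) (by decide) (by norm_num [B1])
      (by norm_num [B2]) (by norm_num) (by norm_num [B1]) (by norm_num [B2]) (by norm_num)
      (by norm_num) (by norm_num) (by norm_num) (by norm_num)

lemma C_neg : C1.height (some (-1)) + C2.height (some (-1)) = Real.log 1089 := by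
  exact sum_eq C1 C2 _ (u := (3, -1)) (v := (1, -3)) (g := 1) (g' := 1) (q := 33) (q' := 66) (δ := 2)
      (by norm_num [HeightData.vec, C1])
      (by norm_num [HeightData.vec, C2]) (by decide) (by decide) (by norm_num [C1])
      (by norm_num [C2]) (by norm_num) (by norm_num [C1]) (by norm_num [C2]) (by norm_num)
      (by norm_num) (by norm_num) (by norm_num) (by norm_num)

lemma C_pos : ∀ r ∈ ({some 0, some 1, some 2, some 3, some 4, none} : Finset (Option ℚ)),
    C1.height r + C2.height r = Real.log 9 := by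
  intro r hr
  simp only [mem_insert, mem_singleton] at hr
  rcases hr with rfl | rfl | rfl | rfl | rfl | rfl
  · exact sum_eq C1 C2 _ (u := (3, 0)) (v := (2, 0)) (g := 3) (g' := 2) (q := 18) (q' := 36) (δ := 2)
      (by norm_num [HeightData.vec, C1])
      (by norm_num [HeightData.vec, C2]) (by decide) (by decide) (by norm_num [C1])
      (by norm_num [C2]) (by norm_num) (by norm_num [C1]) (by norm_num [C2]) (by norm_num)
      (by norm_num) (by norm_num) (by norm_num) (by norm_num)
  · exact sum_eq C1 C2 _ (u := (3, 1)) (v := (3, 3)) (g := 1) (g' := 3) (q := 9) (q' := 18) (δ := 2)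
      (by norm_num [HeightData.vec, C1])
      (by norm_num [HeightData.vec, C2]) (by decide) (by decide) (by norm_num [C1])
      (by norm_num [C2]) (by norm_num) (by norm_num [C1]) (by norm_num [C2]) (by norm_num)
      (by norm_num) (by norm_num) (by norm_num) (by norm_num)
  · exact sum_eq C1 C2 _ (u := (3, 2)) (v := (4, 6)) (g := 1) (g' := 2) (q := 6) (q' := 12) (δ := 2)
      (by norm_num [HeightData.vec, C1])
      (by norm_num [HeightData.vec, C2]) (by decide) (by decide) (by norm_num [C1])
      (by norm_num [C2]) (by norm_num) (by norm_num [C1]) (by norm_num [C2]) (by norm_num)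
      (by norm_num) (by norm_num) (by norm_num) (by norm_num)
  · exact sum_eq C1 C2 _ (u := (3, 3)) (v := (5, 9)) (g := 3) (g' := 1) (q := 9) (q' := 18) (δ := 2)
      (by norm_num [HeightData.vec, C1])
      (by norm_num [HeightData.vec, C2]) (by decide) (by decide) (by norm_num [C1])
      (by norm_num [C2]) (by norm_num) (by norm_num [C1]) (by norm_num [C2]) (by norm_num)
      (by norm_num) (by norm_num) (by norm_num) (by norm_num)
  · exact sum_eq C1 C2 _ (u := (3, 4)) (v := (6, 12)) (g := 1) (g' := 6) (q := 18) (q' := 36) (δ := 2)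
      (by norm_num [HeightData.vec, C1])
      (by norm_num [HeightData.vec, C2]) (by decide) (by decide) (by norm_num [C1])
      (by norm_num [C2]) (by norm_num) (by norm_num [C1]) (by norm_num [C2]) (by norm_num)
      (by norm_num) (by norm_num) (by norm_num) (by norm_num)
  · exact sum_eq C1 C2 _ (u := (0, 1)) (v := (1, 3)) (g := 1) (g' := 1) (q := 3) (q' := 6) (δ := 2)
      (by norm_num [HeightData.vec, C1])
      (by norm_num [HeightData.vec, C2]) (by decide) (by decide) (by norm_num [C1])
      (by norm_num [C2]) (by norm_num) (by norm_num [C1]) (by norm_num [C2]) (by norm_num)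
      (by norm_num) (by norm_num) (by norm_num) (by norm_num)

/-- All slopes of height at most `H`. -/
theorem bounded_height {S : Finset (Option ℚ)} (hne : S.Nonempty) (hS : some (-1) ∉ S) {H : ℕ}
    (hH : 1 ≤ H) (hh : ∀ t : ℚ, some t ∈ S → t.den ≤ H ∧ |t.num| ≤ H) {c : ℝ}
    (h : HasExponent S c) :
    1 < 1 + 1 / (24 * Real.log (7 * Real.log (3 * H + 1))) ∧
      1 + 1 / (24 * Real.log (7 * Real.log (3 * H + 1))) ≤ c := by
  obtain ⟨-, -, hlam, -⟩ := Pool.Agent.H22.GH.Parab.analytic hH
  have h0 : 0 < 1 / (24 * Real.log (7 * Real.log (3 * H + 1))) :=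
    one_div_pos.2 (by linarith)
  have h1 : MaxBound S (max c 0) :=
    ((Pool.Agent.Results.MP_169869_co.GeometricMeans.result.1 S _ (le_max_right c 0)).1).1
      (weak_of hne (mono hne (le_max_left c 0) h))
  have h2 := Pool.Agent.H22.GH.Parab.exponent hS hH hh (le_max_right c 0) h1
  refine ⟨by linarith, ?_⟩
  rcases le_or_gt c 0 with hc | hc
  · rw [max_eq_right hc] at h2
    linarith
  · rwa [max_eq_left hc.le] at h2

/-- All slopes of height at most `H`, for large `H`. -/
theorem bounded_height_asymptotic {ε : ℝ} (hε : 0 < ε) :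
    ∃ H₀ : ℕ, ∀ H : ℕ, H₀ ≤ H → 0 < Real.log (Real.log H) ∧
      ∀ (S : Finset (Option ℚ)) (c : ℝ), S.Nonempty → some (-1) ∉ S →
        (∀ t : ℚ, some t ∈ S → t.den ≤ H ∧ |t.num| ≤ H) → HasExponent S c →
        1 + (Real.log 2 - ε) / Real.log (Real.log H) ≤ c := by
  obtain ⟨H₀, h0⟩ := Pool.Agent.H22.ParabAsymGH.exponent hε
  refine ⟨max H₀ 1, fun H hH => ?_⟩
  obtain ⟨h1, h2⟩ := h0 H ((le_max_left _ _).trans hH)
  refine ⟨h1, fun S c hne hS hh h => ?_⟩
  have h3 := bounded_height hne hS ((le_max_right _ _).trans hH) hh h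
  have hc : 0 ≤ c := by linarith [h3.1, h3.2]
  have h4 : MaxBound S c :=
    ((Pool.Agent.Results.MP_169869_co.GeometricMeans.result.1 S _ hc).1).1 (weak_of hne h)
  exact h2 S c hS hh hc h4

/-- **Theorem.** Let `S` be a finite set of slopes without `-1`.
(1) If `c ∈ [1, 2]` is an exponent for `S` then for every finite family of heights there is `r ∈ S`
with `(2 - c) * ∑ H_j(-1) ≤ c * ∑ H_j(r)`.
(2) Every exponent for `0, 1, 2, ∞` is at least `log 50 / log 10 = 1.69897...`.
(3) Every exponent for `0, 1, 2, 3, ∞` is at least `log 196 / log 28 = 1.58397...`.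
(4) Every exponent for `0, 1, 2, 3, 4, ∞` is at least `log 1089 / log 99 = 1.52183...`.
(5) If `S` is nonempty and the numerators and denominators of all slopes in `S` are at most `H` in
absolute value, then every exponent for `S` is at least `1 + 1 / (24 log (7 log (3 H + 1)))`.
(6) For every `ε > 0` and all large `H` it is at least `1 + (log 2 - ε) / log log H`. -/
theorem result :
    (∀ (S : Finset (Option ℚ)) (c : ℝ), some (-1) ∉ S → 1 ≤ c → c ≤ 2 → HasExponent S c →
      ∀ (n : ℕ) (D : Fin n → HeightData),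
        ∃ r ∈ S, (2 - c) * ∑ j, (D j).height (some (-1)) ≤ c * ∑ j, (D j).height r) ∧
    (∀ c : ℝ, HasExponent {some 0, some 1, some 2, none} c →
      Real.log 50 / Real.log 10 ≤ c) ∧
    (∀ c : ℝ, HasExponent {some 0, some 1, some 2, some 3, none} c →
      Real.log 196 / Real.log 28 ≤ c) ∧
    (∀ c : ℝ, HasExponent {some 0, some 1, some 2, some 3, some 4, none} c →
      Real.log 1089 / Real.log 99 ≤ c) ∧
    (∀ (S : Finset (Option ℚ)) (H : ℕ) (c : ℝ), S.Nonempty → some (-1) ∉ S → 1 ≤ H →
      (∀ t : ℚ, some t ∈ S → t.den ≤ H ∧ |t.num| ≤ H) → HasExponent S c →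
      1 < 1 + 1 / (24 * Real.log (7 * Real.log (3 * H + 1))) ∧
        1 + 1 / (24 * Real.log (7 * Real.log (3 * H + 1))) ≤ c) ∧
    (∀ ε : ℝ, 0 < ε → ∃ H₀ : ℕ, ∀ H : ℕ, H₀ ≤ H → 0 < Real.log (Real.log H) ∧
      ∀ (S : Finset (Option ℚ)) (c : ℝ), S.Nonempty → some (-1) ∉ S →
        (∀ t : ℚ, some t ∈ S → t.den ≤ H ∧ |t.num| ≤ H) → HasExponent S c →
        1 + (Real.log 2 - ε) / Real.log (Real.log H) ≤ c) := by
  have conv : ∀ a b m : ℝ, 0 < a → 0 < b → a * b = m ^ 2 → 1 < m →
      Real.log a / Real.log m = 2 * Real.log a / (Real.log a + Real.log b) := by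
    intro a b m ha hb hab hm
    have h1 : Real.log a + Real.log b = 2 * Real.log m := by
      rw [← Real.log_mul ha.ne' hb.ne', hab, Real.log_pow]
      norm_num
    rw [h1, mul_div_mul_left _ _ two_ne_zero]
  refine ⟨fun S c hS h1 h2 h n D => criterion hS h1 h2 h D, fun c h => ?_, fun c h => ?_,
    fun c h => ?_, fun S H c hne hS hH hh h => bounded_height hne hS hH hh h,
    fun ε hε => bounded_height_asymptotic hε⟩
  · rw [conv 50 2 10 (by norm_num) (by norm_num) (by norm_num) (by norm_num)]
    exact two_heights (by simp; norm_num) (insert_nonempty _ _) (by norm_num) (by norm_num) A1 A2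
      A_neg A_pos h
  · rw [conv 196 4 28 (by norm_num) (by norm_num) (by norm_num) (by norm_num)]
    exact two_heights (by simp; norm_num) (insert_nonempty _ _) (by norm_num) (by norm_num) B1 B2
      B_neg B_pos h
  · rw [conv 1089 9 99 (by norm_num) (by norm_num) (by norm_num) (by norm_num)]
    exact two_heights (by simp; norm_num) (insert_nonempty _ _) (by norm_num) (by norm_num) C1 C2
      C_neg C_pos h

end Pool.Agent.Results.MP_169869_co.HeightCriterion
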