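import Pool.Agent.H84.AK.Union

/-!
# Slopes from orbits of linear fractional maps in the arithmetic Kakeya conjecture

A matrix `g` with the rows `(a, b)`, `(c, d)` and `a d - b c ≠ 0` acts on the slopes by
`s ↦ (a s + b) / (c s + d)`.  The orbits `{r, g r, g² r, …}` are the sequences of slopes which are
ratios of two solutions of a linear recurrence of order two.  Let `T` be the union of `m` orbits.

* If one of the orbits is an infinite orbit of a parabolic map (`tr² = 4 det`), then the slopes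
  of `T` do as well as all the slopes: every exponent which is attained by some finite set of
  slopes is attained by a finite subset of `T`.
* Otherwise the slopes of `T` are of no use: the exponent `1 + 1 / (7380 m)` fails for all the
  finite subsets of `T`, of any size, even up to a constant.
-/

set_option autoImplicit false

namespace Pool.Agent.Results.MP_169869_co.MoebiusOrbits

open Pool.Agent.H84.AK
open Pool.Agent.H989.Slopes

theorem result (m : ℕ) (hm : 1 ≤ m) (g : Fin m → Matrix (Fin 2) (Fin 2) ℚ)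
    (r : Fin m → Option ℚ) (hg : ∀ i, (g i).det ≠ 0) :
    ((∃ i, (g i).trace ^ 2 = 4 * (g i).det ∧ (orb (g i) (r i)).Infinite) →
      ∀ κ : ℝ, 0 ≤ κ → ∀ S₀ : Finset ℚ, (-1 : ℚ) ∉ S₀ →
        (∀ A : Finset (ℤ × ℤ), ((proj (-1) A).card : ℝ) ≤ (big S₀ A : ℝ) ^ κ) →
        ∃ S : Finset ℚ, (-1 : ℚ) ∉ S ∧ (∀ s ∈ S, ∃ i, some s ∈ orb (g i) (r i)) ∧
          ∀ A : Finset (ℤ × ℤ), ((proj (-1) A).card : ℝ) ≤ (big S A : ℝ) ^ κ) ∧
    ((¬ ∃ i, (g i).trace ^ 2 = 4 * (g i).det ∧ (orb (g i) (r i)).Infinite) →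
      ∀ S : Finset ℚ, (-1 : ℚ) ∉ S → (∀ s ∈ S, ∃ i, some s ∈ orb (g i) (r i)) →
        ∀ C : ℝ, ∃ A : Finset (ℤ × ℤ),
          C * (big S A : ℝ) ^ ((1 : ℝ) + 1 / (7380 * m)) < (proj (-1) A).card) := by
  refine ⟨?_, fun h S hS hSo => union_fails m hm g r hg (fun i hi => h ⟨i, hi⟩) S hS hSo⟩
  rintro ⟨i, hi1, hi2⟩ κ hκ S₀ h0 h
  obtain ⟨S, h1, h2, h3⟩ := para_holds (hg i) hi1 hi2 hκ h0 h
  exact ⟨S, h2, fun s hs => ⟨i, h1 s hs⟩, h3⟩

end Pool.Agent.Results.MP_169869_co.MoebiusOrbits
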